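import Mathlib
import Pool.Agent.Y279.MB

set_option autoImplicit false

namespace Pool.Agent.Results.MP_810de6_an.ContainsLinfty

open scoped ENNReal

/-- Extended M-basis: the closed linear span of the family is the whole space, and some total family
of bounded functionals is biorthogonal to it. The index set is arbitrary. -/
def IsExtendedMBasis (𝕜 : Type) [RCLike 𝕜] {E I : Type} [NormedAddCommGroup E] [NormedSpace 𝕜 E]
    (x : I → E) : Prop :=
  (Submodule.span 𝕜 (Set.range x)).topologicalClosure = ⊤ ∧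
    ∃ f : I → (E →L[𝕜] 𝕜),
      (∀ i, f i (x i) = 1) ∧ (∀ i j, i ≠ j → f j (x i) = 0) ∧
        ∀ v : E, (∀ i, f i v = 0) → v = 0

/-- Over either scalar field there is a Banach space with an extended M-basis that has a closed
complemented subspace isometric to the space of bounded sequences. -/
theorem result (𝕜 : Type) [RCLike 𝕜] :
    ∃ (E : Type) (_ : NormedAddCommGroup E) (_ : NormedSpace 𝕜 E) (_ : CompleteSpace E)
      (I : Type) (x : I → E), IsExtendedMBasis 𝕜 x ∧
        ∃ G : Submodule 𝕜 E, IsClosed (G : Set E) ∧ G.ClosedComplemented ∧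
          Nonempty (lp (fun _ : ℕ => 𝕜) ∞ ≃ₗᵢ[𝕜] G) := by
  classical
  refine ⟨Y279.MB.E 𝕜, inferInstance, inferInstance, inferInstance, ℕ ⊕ Y279.MB.Γ 𝕜,
    Y279.MB.x, ⟨Y279.MB.C_top, Y279.MB.f, fun i => ?_, fun i j hij => ?_, Y279.MB.total⟩, ?_⟩
  · rw [Y279.MB.biorth, if_pos rfl]
  · rw [Y279.MB.biorth, if_neg hij]
  · let J : Y279.MB.L 𝕜 →ₗᵢ[𝕜] Y279.MB.E 𝕜 :=
      { toLinearMap := LinearMap.inl 𝕜 (Y279.MB.L 𝕜) (Y279.MB.M 𝕜)
        norm_map' := fun y => by
          change ‖((y, 0) : Y279.MB.E 𝕜)‖ = ‖y‖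
          rw [Prod.norm_mk, norm_zero, max_eq_left (norm_nonneg _)] }
    refine ⟨LinearMap.range J.toLinearMap, ?_, ?_, ⟨J.equivRange⟩⟩
    · have := J.isometry.isClosedEmbedding.isClosed_range
      rw [LinearMap.coe_range]
      exact this
    · refine ⟨(J.equivRange.toContinuousLinearEquiv : _ →L[𝕜] _).comp
        (ContinuousLinearMap.fst 𝕜 (Y279.MB.L 𝕜) (Y279.MB.M 𝕜)), ?_⟩
      rintro ⟨_, y, rfl⟩
      rfl

end Pool.Agent.Results.MP_810de6_an.ContainsLinfty
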